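import Pool.Agent.Y727.CS.Stm

/-!
# The cyclicity identity (project CS of helper727, job CYC)
-/

set_option autoImplicit false

namespace Pool.Agent.Y555.CSC

open Matrix Pool.Agent.Y727.CS

theorem word_succ {ι : Type} [Fintype ι] [DecidableEq ι] {k : ℕ} (S : Matrix ι ι ℂ)
    (w : Fin (k + 1) → Matrix ι ι ℂ) :
    word S w = S * w 0 * word S (fun i => w i.succ) := by
  simp [word, List.ofFn_succ, List.prod_cons]

theorem word_succ' {ι : Type} [Fintype ι] [DecidableEq ι] {k : ℕ} (S : Matrix ι ι ℂ)
    (w : Fin (k + 1) → Matrix ι ι ℂ) :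
    word S w = word S (fun i => w i.castSucc) * (S * w (Fin.last k)) := by
  simp only [word]
  rw [List.ofFn_succ', List.concat_eq_append, List.prod_append]
  simp

theorem sg_mul {d : ℕ} (s c : Equiv.Perm (Fin d)) : sg (s * c) = sg s * sg c := by
  simp [sg]

theorem sg_sq {d : ℕ} (c : Equiv.Perm (Fin d)) : sg c * sg c = 1 := by
  rcases Int.units_eq_one_or (Equiv.Perm.sign c) with h | h <;> simp [sg, h]

/-- reindexing an alternating sum -/
theorem reindex {d : ℕ} (c : Equiv.Perm (Fin d)) (F : Equiv.Perm (Fin d) → ℂ) :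
    ∑ s : Equiv.Perm (Fin d), sg s * F (s * c) = sg c * ∑ s : Equiv.Perm (Fin d), sg s * F s := by
  rw [Finset.mul_sum]
  refine Fintype.sum_equiv (Equiv.mulRight c) _ _ fun s => ?_
  simp only [Equiv.coe_mulRight]
  rw [sg_mul]
  linear_combination (-(sg s * F (s * c))) * sg_sq c

theorem t_cyc : S_cyc := by
  intro ι _ _ e g S Ga he hSG hG p
  set f : Equiv.Perm (Fin (e + 1)) → ℂ := fun s =>
    (Ga * word S (fun i => g (s i))).trace with hf
  -- the trace is invariant under the rotation
  have hrot : ∀ s : Equiv.Perm (Fin (e + 1)), f (s * finRotate (e + 1)) = f s := by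
    intro s
    simp only [hf]
    rw [word_succ' S (fun i => g ((s * finRotate (e + 1)) i)), word_succ S (fun i => g (s i))]
    have h1 : (fun i : Fin e => g ((s * finRotate (e + 1)) i.castSucc))
        = fun i : Fin e => g (s i.succ) := by
      funext i
      have : finRotate (e + 1) i.castSucc = i.succ := by
        ext
        rw [coe_finRotate_of_ne_last (Fin.castSucc_lt_last i).ne]
        simp
      simp [Equiv.Perm.mul_apply, this]
    have h2 : (s * finRotate (e + 1)) (Fin.last e) = s 0 := by
      simp [Equiv.Perm.mul_apply]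
    rw [h1, h2]
    have hc : Ga * (S * g (s 0)) = (S * g (s 0)) * Ga := by
      have e1 : Ga * S = -(S * Ga) := by rw [hSG, neg_neg]
      rw [← mul_assoc, e1, neg_mul, mul_assoc, hG, mul_neg, neg_neg, mul_assoc]
    calc (Ga * (word S (fun i : Fin e => g (s i.succ)) * (S * g (s 0)))).trace
        = ((Ga * word S (fun i : Fin e => g (s i.succ))) * (S * g (s 0))).trace := by
          rw [mul_assoc]
      _ = ((S * g (s 0)) * (Ga * word S (fun i : Fin e => g (s i.succ)))).trace :=
          Matrix.trace_mul_comm _ _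
      _ = (Ga * (S * g (s 0) * word S (fun i : Fin e => g (s i.succ)))).trace := by
          rw [← mul_assoc, ← hc, mul_assoc]
  have hT : ∑ s : Equiv.Perm (Fin (e + 1)), sg s * f s = 0 := by
    have h := reindex (finRotate (e + 1)) f
    simp only [hrot] at h
    have hs : sg (finRotate (e + 1)) = -1 := by
      simp [sg, sign_finRotate, he.neg_one_pow]
    rw [hs] at h
    have h2 : (2 : ℂ) * ∑ s : Equiv.Perm (Fin (e + 1)), sg s * f s = 0 := by
      linear_combination h
    simpa using h2
  have h := reindex (Fin.cycleRange p.castSucc) f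
  rw [hT, mul_zero] at h
  rw [← h]
  refine Finset.sum_congr rfl fun s _ => ?_
  congr 4
  symm
  rw [Fin.eq_insertNth_iff]
  constructor
  · simp [Equiv.Perm.mul_apply]
  · funext k
    simp [Fin.removeNth, Equiv.Perm.mul_apply, Fin.cycleRange_succAbove]

end Pool.Agent.Y555.CSC
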